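import Pool.Agent.Helper92_SBG.Stmts

/-!
Module NIL: the groups `Gp k` are nilpotent, torsion free and finitely generated.
-/

set_option autoImplicit false

namespace Pool.Agent.SBG.H11

open Pool.Agent.SBG

open Sy

section

variable {k : ℕ}

/-- the coordinates of weight less than `s` are zero -/
def Vs (s : ℕ) (x : W k) : Prop := ∀ c, wt c < s → x c = 0

lemma wt_le (c : Jx k) : wt c ≤ 5 := by
  rcases c with (⟨i, s⟩ | j) | j
  · cases s <;> simp [wt, wtI, Sy.wt]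
  · fin_cases j <;> simp [wt, wtI]
  · simp [wt]

lemma Vs.zero_of {s : ℕ} {x : W k} (h : Vs s x) (hs : 6 ≤ s) : x = 0 := by
  funext c
  exact h c (by have := wt_le c; omega)

lemma Vs.pv_zero {s : ℕ} {x : W k} (h : Vs s x) (hs : 5 ≤ s) : pv x = 0 := by
  funext c
  apply h (Sum.inl c)
  have h1 : wt (Sum.inl c : Jx k) ≤ 4 := by
    rcases c with ⟨i, s⟩ | j
    · cases s <;> simp [wt, wtI, Sy.wt]
    · fin_cases j <;> simp [wt, wtI]
  omega

lemma Vs.add {s : ℕ} {x y : W k} (h : Vs s x) (h' : Vs s y) : Vs s (x + y) := by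
  intro c hc
  rw [Pi.add_apply, h c hc, h' c hc, add_zero]

lemma Vs.neg {s : ℕ} {x : W k} (h : Vs s x) : Vs s (-x) := by
  intro c hc
  rw [Pi.neg_apply, h c hc, neg_zero]

lemma Vs.zsmul {s : ℕ} {x : W k} (h : Vs s x) (m : ℤ) : Vs s (m • x) := by
  intro c hc
  rw [Pi.smul_apply, h c hc, smul_zero]

lemma Vs.nsmul {s : ℕ} {x : W k} (h : Vs s x) (m : ℕ) : Vs s (m • x) := by
  intro c hc
  rw [Pi.smul_apply, h c hc, smul_zero]

lemma Vs.mono {s t : ℕ} {x : W k} (h : Vs t x) (hst : s ≤ t) : Vs s x :=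
  fun c hc => h c (by omega)

lemma Vs.Dn {s : ℕ} {x : W k} (h : Vs s x) : Vs (s + 1) (Dn x) := by
  intro c hc
  rcases c with (⟨i, t⟩ | j) | j
  · have hx : ∀ t' : Sy, Sy.wt t' < s → x (Sum.inl (Sum.inl (i, t'))) = 0 := fun t' h' => h _ h'
    have hc' : Sy.wt t < s + 1 := hc
    cases t <;> simp only [Sy.wt] at hc' <;> simp only [SBG.Dn, DSy] <;>
      simp (disch := (simp only [Sy.wt]; omega)) only [hx, sub_zero, add_zero, neg_zero]
  · have hx : ∀ j' : Fin 3, (j' : ℕ) + 1 < s → x (Sum.inl (Sum.inr j')) = 0 := fun j' h' => h _ h'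
    have hc' : (j : ℕ) + 1 < s + 1 := hc
    fin_cases j
    · simp [SBG.Dn]
    · simp only [SBG.Dn]
      have := hx 0 (by simp at hc' ⊢; omega)
      simpa using this
    · simp only [SBG.Dn]
      have := hx 1 (by simp at hc' ⊢; omega)
      simpa using this
  · have hc' : 5 < s + 1 := hc
    have hx : ∀ j' : Fin 3, x (Sum.inl (Sum.inr j')) = 0 := by
      intro j'
      apply h
      change (j' : ℕ) + 1 < s
      have := j'.2
      omega
    fin_cases j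
    · simp [SBG.Dn]
    · simp only [SBG.Dn]
      have := hx 2
      simpa using this

lemma Vs.tp_sub {s : ℕ} {x : W k} (h : Vs s x) (m : ℤ) : Vs (s + 1) (tp m x - x) := by
  have h1 : tp m x - x = Ring.choose m 1 • SBG.Dn x + Ring.choose m 2 • SBG.Dn (SBG.Dn x) +
      Ring.choose m 3 • SBG.Dn (SBG.Dn (SBG.Dn x)) := by
    rw [tp_expand, Fx]
    abel
  rw [h1]
  have h2 := h.Dn
  have h3 := h2.Dn
  have h4 := h3.Dn
  exact ((h2.zsmul _).add ((h3.zsmul _).mono (by omega))).add ((h4.zsmul _).mono (by omega))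

lemma Vs.tp {s : ℕ} {x : W k} (h : Vs s x) (m : ℤ) : Vs s (tp m x) := by
  have h1 := (h.tp_sub m).mono (Nat.le_succ s)
  have h2 := h1.add h
  rwa [sub_add_cancel] at h2

lemma Vs_Bf_right {s : ℕ} {x : W k} (h : Vs s x) (y : W k) : Vs (s + 1) (Bf y x) := by
  intro c hc
  rcases c with c | j
  · rfl
  · have hc' : 5 < s + 1 := hc
    rw [Bf_congr (x' := y) (y' := 0) rfl (by rw [h.pv_zero (by omega), pv_zero]), Bf_zero_right]
    rfl

lemma Vs_one (x : W k) : Vs 1 x := by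
  intro c hc
  exfalso
  rcases c with (⟨i, t⟩ | j) | j
  · have hc' : Sy.wt t < 1 := hc
    cases t <;> simp [Sy.wt] at hc'
  · have hc' : (j : ℕ) + 1 < 1 := hc
    omega
  · have hc' : 5 < 1 := hc
    omega

/-- the terms of the central series -/
def Ns (k s : ℕ) : Subgroup (Gp k) where
  carrier := {g | g.m = 0 ∧ Vs s g.x}
  mul_mem' := by
    rintro a b ⟨ha, ha'⟩ ⟨hb, hb'⟩
    rw [Gp.eta0 ha, Gp.eta0 hb, Gp.mul0]
    exact ⟨rfl, (ha'.add hb').add ((Vs_Bf_right hb' _).mono (Nat.le_succ s))⟩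
  one_mem' := ⟨rfl, fun c _ => rfl⟩
  inv_mem' := by
    rintro a ⟨ha, ha'⟩
    rw [Gp.eta0 ha, Gp.inv0]
    exact ⟨rfl, ha'.neg⟩

lemma mem_Ns {s : ℕ} {g : Gp k} : g ∈ Ns k s ↔ g.m = 0 ∧ Vs s g.x := Iff.rfl

lemma comm_Ns {s : ℕ} {a : Gp k} (ha : a ∈ Ns k s) (g : Gp k) :
    a * g * a⁻¹ * g⁻¹ ∈ Ns k (s + 1) := by
  obtain ⟨h0, h1⟩ := mem_Ns.1 ha
  obtain ⟨m, x⟩ := a
  simp only at h0 h1
  subst h0
  have e : (⟨0, x⟩ : Gp k) * g * (⟨0, x⟩ : Gp k)⁻¹ * g⁻¹ =
      ⟨0, x⟩ * (g * (⟨0, x⟩ : Gp k)⁻¹ * g⁻¹) := by group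
  rw [e, Gp.inv0, Gp.conj0, Gp.mul0]
  refine ⟨rfl, ?_⟩
  have h2 : Vs s (tp g.m (-x)) := h1.neg.tp _
  have h3 : Vs (s + 1) (x + tp g.m (-x)) := by
    have h7 := h1.neg.tp_sub g.m
    have h8 : tp g.m (-x) - -x = x + tp g.m (-x) := by abel
    rwa [h8] at h7
  have h4 : Vs (s + 1) (2 • Bf g.x (tp g.m (-x))) := (Vs_Bf_right h2 _).nsmul 2
  have h5 : Vs (s + 1) (Bf x (tp g.m (-x) + 2 • Bf g.x (tp g.m (-x)))) := by
    rw [Bf_add_right, Bf_nsmul_right, Bf_Bf_right, smul_zero, add_zero]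
    exact Vs_Bf_right h2 _
  have h6 : x + (tp g.m (-x) + 2 • Bf g.x (tp g.m (-x))) +
      Bf x (tp g.m (-x) + 2 • Bf g.x (tp g.m (-x))) =
      (x + tp g.m (-x)) + 2 • Bf g.x (tp g.m (-x)) +
      Bf x (tp g.m (-x) + 2 • Bf g.x (tp g.m (-x))) := by abel
  rw [h6]
  exact (h3.add h4).add h5

lemma mul_x1 (g h : Gp k) {c : Jx k} (hc : wt c < 2) : (g * h).x c = g.x c + h.x c := by
  rw [Gp.mul_x, Pi.add_apply, Pi.add_apply]
  have h1 : tp g.m h.x c = h.x c := by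
    have := (Vs_one h.x).tp_sub g.m c hc
    rwa [Pi.sub_apply, sub_eq_zero] at this
  have h2 : Bf g.x (tp g.m h.x) c = 0 := Vs_Bf_right (Vs_one _) _ c hc
  rw [h1, h2, add_zero]

lemma inv_x1 (g : Gp k) {c : Jx k} (hc : wt c < 2) : (g⁻¹).x c = - g.x c := by
  have h1 := mul_x1 g g⁻¹ hc
  rw [mul_inv_cancel] at h1
  have h2 : (1 : Gp k).x c = 0 := rfl
  rw [h2] at h1
  linarith

lemma comm_top (a g : Gp k) : a * g * a⁻¹ * g⁻¹ ∈ Ns k 2 := by
  refine ⟨?_, ?_⟩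
  · simp only [Gp.mul_m, Gp.inv_m]
    ring
  · intro c hc
    rw [mul_x1 _ _ hc, mul_x1 _ _ hc, mul_x1 _ _ hc, inv_x1 _ hc, inv_x1 _ hc]
    ring

/-- the central series -/
def Hs (k : ℕ) : ℕ → Subgroup (Gp k)
  | 0 => ⊤
  | n + 1 => Ns k (n + 2)

lemma isNil (k : ℕ) : Group.IsNilpotent (Gp k) := by
  rw [nilpotent_iff_finite_descending_central_series]
  refine ⟨5, Hs k, ⟨rfl, ?_⟩, ?_⟩
  · intro x n hx g
    cases n with
    | zero => exact comm_top x g
    | succ n => exact comm_Ns hx g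
  · rw [eq_bot_iff]
    intro g hg
    obtain ⟨h0, h1⟩ := mem_Ns.1 hg
    rw [Subgroup.mem_bot, Gp.one_def]
    exact Gp.ext h0 (h1.zero_of (by norm_num))

lemma pow_m (g : Gp k) (n : ℕ) : (g ^ n).m = n * g.m := by
  induction n with
  | zero => simp
  | succ n ih =>
    rw [pow_succ, Gp.mul_m, ih]
    push_cast
    ring

lemma torsion (g : Gp k) (n : ℕ) (hn : 0 < n) (h : g ^ n = 1) : g = 1 := by
  have h1 := pow_m g n
  rw [h] at h1
  have h2 : (1 : Gp k).m = 0 := rfl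
  rw [h2] at h1
  have h3 : g.m = 0 := by
    rcases mul_eq_zero.1 h1.symm with h | h
    · exfalso
      have : n = 0 := by exact_mod_cast h
      omega
    · exact h
  rw [Gp.eta0 h3, Gp.pow0, Gp.one_def] at h
  have h4 : n • g.x = 0 := congrArg Gp.x h
  have h5 : g.x = 0 := by
    rcases smul_eq_zero.1 h4 with h | h
    · omega
    · exact h
  rw [Gp.eta0 h3, h5]
  rfl

lemma one_zpow' (m : ℤ) : (⟨1, 0⟩ : Gp k) ^ m = ⟨m, 0⟩ := by
  induction m with
  | zero => rw [zpow_zero, Gp.one_def]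
  | succ m ih =>
    rw [zpow_add_one, ih]
    apply Gp.ext
    · simp
    · simp
  | pred m ih =>
    rw [zpow_sub_one, ih]
    apply Gp.ext
    · simp
      ring
    · simp

lemma fg (k : ℕ) : Group.FG (Gp k) := by
  classical
  rw [Group.fg_iff]
  set S : Set (Gp k) := insert ⟨1, 0⟩ (Set.range fun c : Jx k => (⟨0, Pi.single c 1⟩ : Gp k))
    with hS
  refine ⟨S, ?_, (Set.finite_range _).insert _⟩
  rw [eq_top_iff]
  set K := Subgroup.closure S with hK
  have hone : (⟨1, 0⟩ : Gp k) ∈ K := Subgroup.subset_closure (Set.mem_insert _ _)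
  have hsing : ∀ (c : Jx k) (a : ℤ), (⟨0, Pi.single c a⟩ : Gp k) ∈ K := by
    intro c a
    have h1 : (⟨0, Pi.single c 1⟩ : Gp k) ∈ K :=
      Subgroup.subset_closure (Set.mem_insert_of_mem _ ⟨c, rfl⟩)
    have h2 := K.zpow_mem h1 a
    rw [Gp.zpow0] at h2
    have h3 : a • (Pi.single c (1 : ℤ) : W k) = Pi.single c a := by
      rw [← Pi.single_smul, smul_eq_mul, mul_one]
    rwa [h3] at h2
  have hzin : ∀ z : Fin 2 → ℤ, (⟨0, zin z⟩ : Gp k) ∈ K := by
    intro z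
    have h1 : (⟨0, zin z⟩ : Gp k) = ⟨0, Pi.single (Sum.inr 0) (z 0)⟩ *
        ⟨0, Pi.single (Sum.inr 1) (z 1)⟩ := by
      rw [Gp.mul0]
      have h2 : Bf (Pi.single (Sum.inr 0) (z 0) : W k) (Pi.single (Sum.inr 1) (z 1)) = 0 := by
        rw [Bf_congr (x' := 0) (y' := Pi.single (Sum.inr 1) (z 1)) _ rfl, Bf_zero_left]
        funext c
        simp [pv]
      rw [h2, add_zero]
      congr 1
      funext c
      rcases c with c | j
      · simp [zin]
      · fin_cases j <;> simp [zin]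
    rw [h1]
    exact K.mul_mem (hsing _ _) (hsing _ _)
  have hadd : ∀ x y : W k, (⟨0, x⟩ : Gp k) ∈ K → (⟨0, y⟩ : Gp k) ∈ K →
      (⟨0, x + y⟩ : Gp k) ∈ K := by
    intro x y hx hy
    have h1 := K.mul_mem (K.mul_mem hx hy) (hzin (-bz x y))
    rw [Gp.mul0, Gp.mul0, Bf_zin_right, add_zero, zin_neg] at h1
    have h2 : x + y + Bf x y + -zin (bz x y) = x + y := by
      rw [Bf]
      abel
    rwa [h2] at h1
  have hall : ∀ x : W k, (⟨0, x⟩ : Gp k) ∈ K := by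
    intro x
    have h1 : ∀ s : Finset (Jx k), (⟨0, ∑ c ∈ s, Pi.single c (x c)⟩ : Gp k) ∈ K := by
      intro s
      induction s using Finset.induction_on with
      | empty =>
        rw [Finset.sum_empty, ← Gp.one_def]
        exact K.one_mem
      | insert c s hc ih =>
        rw [Finset.sum_insert hc]
        exact hadd _ _ (hsing _ _) ih
    have h2 := h1 Finset.univ
    rwa [Finset.univ_sum_single] at h2
  intro g _
  have h1 : g = ⟨0, g.x⟩ * (⟨1, 0⟩ : Gp k) ^ g.m := by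
    rw [one_zpow']
    apply Gp.ext
    · simp
    · simp
  rw [h1]
  exact K.mul_mem (hall _) (K.zpow_mem hone _)

end

theorem nil : NilStmt := fun k => ⟨isNil k, torsion, fg k⟩

end Pool.Agent.SBG.H11
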